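import Pool.Agent.H41.QT1

namespace Pool.Agent.Results.MP_f7be6d_mp.SmallCharge

open Pool.Agent.H41.TF Filter Topology

theorem result : ∃ Z : ℝ, 0 < Z ∧ ∀ z : ℝ, 0 < z → z ≤ Z →
    EQ 1 (fun _ : Fin 1 => z) 0 < ETF 1 (fun _ : Fin 1 => z) 0 := by
  obtain ⟨κ, hκ, h1⟩ := upQ
  obtain ⟨C, h2⟩ := lowTF (s := 1 / κ) (by positivity)
  refine ⟨(κ / 4 / (|C| + 1)) ^ 2, by positivity, fun z hz hZ => ?_⟩
  obtain ⟨ψ, a1, a2⟩ := h1 z hz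
  refine (iInf₂_le ψ a1).trans_lt (lt_of_lt_of_le (b := ((-(C * z ^ (5 / 2 : ℝ)) -
    z ^ 2 / (2 * (1 / κ)) : ℝ) : EReal)) (EReal.coe_lt_coe_iff.mpr (a2.trans_lt ?_))
      (le_iInf₂ fun ρ h => EReal.coe_le_coe_iff.mpr (h2 z hz ρ h.1 h.2.1 h.2.2.1)))
  have e : z ^ (5 / 2 : ℝ) = z ^ 2 * √z := by
    rw [Real.sqrt_eq_rpow, ← Real.rpow_natCast, ← Real.rpow_add hz]; norm_num
  have b := Real.sqrt_le_iff.mpr ⟨by positivity, hZ⟩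
  rw [le_div_iff₀ (by positivity)] at b
  have b2 : C * √z ≤ κ / 4 := by nlinarith [le_abs_self C, Real.sqrt_nonneg z]
  rw [e, show z ^ 2 / (2 * (1 / κ)) = κ / 2 * z ^ 2 by field_simp]
  nlinarith [mul_le_mul_of_nonneg_left b2 (sq_nonneg z), mul_pos hκ (pow_pos hz 2)]

end Pool.Agent.Results.MP_f7be6d_mp.SmallCharge
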